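import Mathlib

/-!
# Geproci sets of points in projective 3-space
-/

set_option autoImplicit false

open MvPolynomial

namespace Pool.Agent.H732_geproci

/-- The complex projective space of dimension three. -/
abbrev P3 : Type := Projectivization ℂ (Fin 4 → ℂ)

/-- The complex projective plane. -/
abbrev P2 : Type := Projectivization ℂ (Fin 3 → ℂ)

/-- The set `W` of points of the plane is the transverse intersection of a curve `F = 0` of
degree `a` and a curve `G = 0` of degree `b`: it consists of the common zeros of `F` and `G`, and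
at each of them the two gradients are linearly independent. -/
def IsTransverseIntersection (a b : ℕ) (W : Set P2) : Prop :=
  ∃ F G : MvPolynomial (Fin 3) ℂ, F.IsHomogeneous a ∧ G.IsHomogeneous b ∧
    (∀ x : P2, x ∈ W ↔ eval x.rep F = 0 ∧ eval x.rep G = 0) ∧
    ∀ x ∈ W, LinearIndependent ℂ
      ![fun i => eval x.rep (pderiv i F), fun i => eval x.rep (pderiv i G)]

/-- The image of the set `Z` of points of `ℙ³` in `ℙ²` under a linear map `ℂ⁴ → ℂ³`. -/
def image (π : (Fin 4 → ℂ) →ₗ[ℂ] (Fin 3 → ℂ)) (Z : Set P3) : Set P2 :=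
  {x | ∃ z ∈ Z, x.submodule = z.submodule.map π}

/-- The finite set `Z` is `(a, b)`-geproci: for a general point `P`, i.e. for every `P` outside the
zero set of some nonzero polynomial `g`, the projection of `Z` from `P` to a plane (a surjective
linear map `ℂ⁴ → ℂ³` with kernel spanned by `P`) is the transverse intersection of a curve of degree
`a` and a curve of degree `b`. -/
def IsGeproci (a b : ℕ) (Z : Set P3) : Prop :=
  Z.Finite ∧ 1 ≤ a ∧ a ≤ b ∧ ∃ g : MvPolynomial (Fin 4) ℂ, g ≠ 0 ∧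
    ∀ P : Fin 4 → ℂ, eval P g ≠ 0 → ∀ π : (Fin 4 → ℂ) →ₗ[ℂ] (Fin 3 → ℂ),
      Function.Surjective π → LinearMap.ker π = Submodule.span ℂ {P} →
        IsTransverseIntersection a b (image π Z)

/-- The set `Z` lies in a plane. -/
def IsDegenerate (Z : Set P3) : Prop :=
  ∃ h : Fin 4 → ℂ, h ≠ 0 ∧ ∀ z ∈ Z, ∑ i, h i * z.rep i = 0

/-- The set `Z` is an `(a, b)`-grid: there are `a` pairwise skew lines `L i` and `b` pairwise skew
lines `M j` such that each `L i` meets each `M j` in one point, and `Z` is the set of these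
points. Lines of `ℙ³` are two-dimensional subspaces of `ℂ⁴`. -/
def IsGrid (a b : ℕ) (Z : Set P3) : Prop :=
  ∃ (L : Fin a → Submodule ℂ (Fin 4 → ℂ)) (M : Fin b → Submodule ℂ (Fin 4 → ℂ)),
    (∀ i, Module.finrank ℂ (L i) = 2) ∧ (∀ j, Module.finrank ℂ (M j) = 2) ∧
    (∀ i i', i ≠ i' → L i ⊓ L i' = ⊥) ∧ (∀ j j', j ≠ j' → M j ⊓ M j' = ⊥) ∧
    (∀ i j, Module.finrank ℂ ↥(L i ⊓ M j) = 1) ∧
    ∀ z : P3, z ∈ Z ↔ ∃ i j, z.submodule = L i ⊓ M j

/-- `Z` is a nontrivial `(a, b)`-geproci set: it is `(a, b)`-geproci, it does not lie in a plane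
and it is not a grid. -/
def IsNontrivialGeproci (a b : ℕ) (Z : Set P3) : Prop :=
  IsGeproci a b Z ∧ ¬ IsDegenerate Z ∧ ∀ m n, ¬ IsGrid m n Z

/-- The matroids of `Z` and `Z'` are isomorphic: some bijection preserves linear independence. -/
def SameMatroid (Z Z' : Set P3) : Prop :=
  ∃ e : Z ≃ Z', ∀ S : Set Z, LinearIndependent ℂ (fun s : S => s.1.1.rep) ↔
    LinearIndependent ℂ (fun s : S => (e s.1).1.rep)

/-- `Z` and `Z'` are projectively equivalent. -/
def ProjEquiv (Z Z' : Set P3) : Prop :=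
  ∃ g : (Fin 4 → ℂ) ≃ₗ[ℂ] (Fin 4 → ℂ),
    Z' = (Projectivization.map g.toLinearMap g.injective) '' Z

end Pool.Agent.H732_geproci
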