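import Mathlib
import Pool.Agent.H732_geproci.Defs

/-!
# Four skew lines, their points and the cubic cones
-/

set_option autoImplicit false
set_option maxHeartbeats 400000

open MvPolynomial Matrix

namespace Pool.Agent.H732_geproci

/-- Coefficients of the four lines. -/
def pc : Fin 4 → ℂ := ![1, 0, 1, 1]

/-- Coefficients of the four lines. -/
def rc (α : ℂ) : Fin 4 → ℂ := ![0, 1, 1, α]

/-- The points of the four lines. -/
def pt (α : ℂ) (i : Fin 4) (w0 w1 : ℂ) : Fin 4 → ℂ :=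
  ![pc i * w0, pc i * w1, rc α i * w0, rc (1 - α) i * w1]

/-- The first coefficient of the plane through `P` and the line `i`. -/
def cA (α : ℂ) (P : Fin 4 → ℂ) (i : Fin 4) : ℂ := P 0 * rc α i - P 2 * pc i

/-- The second coefficient of the plane through `P` and the line `i`. -/
def cB (α : ℂ) (P : Fin 4 → ℂ) (i : Fin 4) : ℂ := P 1 * rc (1 - α) i - P 3 * pc i

/-- The plane through `P` and the line `i`. -/
def pl (α : ℂ) (P : Fin 4 → ℂ) (i : Fin 4) : Fin 4 → ℂ :=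
  ![rc α i * cB α P i, -(rc (1 - α) i * cA α P i), -(pc i * cB α P i), pc i * cA α P i]

lemma pl_pt (α : ℂ) (P : Fin 4 → ℂ) (i k : Fin 4) (w0 w1 : ℂ) :
    pl α P k ⬝ᵥ pt α i w0 w1 =
      w0 * (pc i * rc α k - rc α i * pc k) * cB α P k -
        w1 * (pc i * rc (1 - α) k - rc (1 - α) i * pc k) * cA α P k := by
  simp only [pl, pt, dotProduct, Fin.sum_univ_four, Matrix.cons_val]
  ring

lemma pl_pt_self (α : ℂ) (P : Fin 4 → ℂ) (i : Fin 4) (w0 w1 : ℂ) :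
    pl α P i ⬝ᵥ pt α i w0 w1 = 0 := by
  rw [pl_pt]
  ring

lemma pl_P (α : ℂ) (P : Fin 4 → ℂ) (i : Fin 4) : pl α P i ⬝ᵥ P = 0 := by
  simp only [pl, cA, cB, dotProduct, Fin.sum_univ_four, Matrix.cons_val]
  ring

/-- A point of the plane through `P` and the line `i`. -/
lemma exists_of_pl_eq_zero (α : ℂ) (P : Fin 4 → ℂ) (i : Fin 4) (hA : cA α P i ≠ 0)
    (X : Fin 4 → ℂ) (h : pl α P i ⬝ᵥ X = 0) :
    ∃ t w0 w1 : ℂ, X = t • P + pt α i w0 w1 := by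
  simp only [pl, dotProduct, Fin.sum_univ_four, Matrix.cons_val] at h
  set A := cA α P i with hAdef
  set B := cB α P i with hBdef
  have hA' : A = P 0 * rc α i - P 2 * pc i := rfl
  have hB' : B = P 1 * rc (1 - α) i - P 3 * pc i := rfl
  -- the parameter
  set t := (X 0 * rc α i - X 2 * pc i) / A with ht
  have htA : t * A = X 0 * rc α i - X 2 * pc i := div_mul_cancel₀ _ hA
  have h0 : (X 0 - t * P 0) * rc α i = (X 2 - t * P 2) * pc i := by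
    linear_combination (-1 : ℂ) * htA + t * hA'
  have htB : t * B = X 1 * rc (1 - α) i - X 3 * pc i := by
    apply mul_left_cancel₀ hA
    linear_combination B * htA + h
  have h1 : (X 1 - t * P 1) * rc (1 - α) i = (X 3 - t * P 3) * pc i := by
    linear_combination (-1 : ℂ) * htB + t * hB'
  clear_value t
  fin_cases i
  · simp [pc, rc] at h0 h1
    refine ⟨t, X 0 - t * P 0, X 1 - t * P 1, ?_⟩
    funext j
    fin_cases j
    · simp [pt, pc, rc]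
    · simp [pt, pc, rc]
    · simp [pt, pc, rc]
      linear_combination -h0
    · simp [pt, pc, rc]
      linear_combination -h1
  · simp [pc, rc] at h0 h1
    refine ⟨t, X 2 - t * P 2, X 3 - t * P 3, ?_⟩
    funext j
    fin_cases j
    · simp [pt, pc, rc]
      linear_combination h0
    · simp [pt, pc, rc]
      linear_combination h1
    · simp [pt, pc, rc]
    · simp [pt, pc, rc]
  · simp [pc, rc] at h0 h1
    refine ⟨t, X 0 - t * P 0, X 1 - t * P 1, ?_⟩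
    funext j
    fin_cases j
    · simp [pt, pc, rc]
    · simp [pt, pc, rc]
    · simp [pt, pc, rc]
      linear_combination -h0
    · simp [pt, pc, rc]
      linear_combination -h1
  · simp [pc, rc] at h0 h1
    refine ⟨t, X 0 - t * P 0, X 1 - t * P 1, ?_⟩
    funext j
    fin_cases j
    · simp [pt, pc, rc]
    · simp [pt, pc, rc]
    · simp [pt, pc, rc]
      linear_combination -h0
    · simp [pt, pc, rc]
      linear_combination -h1

/-- The minors of `(P, X)` as linear forms in `X`. -/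
def m00 (P : Fin 4 → ℂ) : Fin 4 → ℂ := ![P 2, 0, -P 0, 0]
/-- A minor. -/
def m11 (P : Fin 4 → ℂ) : Fin 4 → ℂ := ![0, P 3, 0, -P 1]
/-- A minor. -/
def m01 (P : Fin 4 → ℂ) : Fin 4 → ℂ := ![P 3, 0, 0, -P 0]
/-- A minor. -/
def m10 (P : Fin 4 → ℂ) : Fin 4 → ℂ := ![0, P 2, -P 1, 0]
/-- A minor. -/
def mx (P : Fin 4 → ℂ) : Fin 4 → ℂ := ![P 1, -P 0, 0, 0]
/-- A minor. -/
def my (P : Fin 4 → ℂ) : Fin 4 → ℂ := ![0, 0, P 3, -P 2]
/-- A combination of minors. -/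
def cb (α : ℂ) (P : Fin 4 → ℂ) : Fin 4 → ℂ :=
  (3 - 3 * (1 - 2 * α)) • m10 P + (3 + 3 * (1 - 2 * α)) • m01 P -
    (3 * (1 - 2 * α)) • (mx P + my P)

/-- The cubic cone with vertex `P`. -/
def Gval (α l : ℂ) (P X : Fin 4 → ℂ) : ℂ :=
  (m11 P ⬝ᵥ X) ^ 3 + l ^ 2 * (m00 P ⬝ᵥ X) ^ 3 - l * ((m10 P ⬝ᵥ X) ^ 3 + (m01 P ⬝ᵥ X) ^ 3) +
    l * ((mx P ⬝ᵥ X) * (my P ⬝ᵥ X) * (cb α P ⬝ᵥ X))

lemma minor_P (α : ℂ) (P : Fin 4 → ℂ) : m00 P ⬝ᵥ P = 0 ∧ m11 P ⬝ᵥ P = 0 ∧ m01 P ⬝ᵥ P = 0 ∧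
    m10 P ⬝ᵥ P = 0 ∧ mx P ⬝ᵥ P = 0 ∧ my P ⬝ᵥ P = 0 ∧ cb α P ⬝ᵥ P = 0 := by
  have h1 : m00 P ⬝ᵥ P = 0 := by
    simp only [m00, dotProduct, Fin.sum_univ_four, Matrix.cons_val]; ring
  have h2 : m11 P ⬝ᵥ P = 0 := by
    simp only [m11, dotProduct, Fin.sum_univ_four, Matrix.cons_val]; ring
  have h3 : m01 P ⬝ᵥ P = 0 := by
    simp only [m01, dotProduct, Fin.sum_univ_four, Matrix.cons_val]; ring
  have h4 : m10 P ⬝ᵥ P = 0 := by
    simp only [m10, dotProduct, Fin.sum_univ_four, Matrix.cons_val]; ring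
  have h5 : mx P ⬝ᵥ P = 0 := by
    simp only [mx, dotProduct, Fin.sum_univ_four, Matrix.cons_val]; ring
  have h6 : my P ⬝ᵥ P = 0 := by
    simp only [my, dotProduct, Fin.sum_univ_four, Matrix.cons_val]; ring
  refine ⟨h1, h2, h3, h4, h5, h6, ?_⟩
  simp only [cb, sub_dotProduct, add_dotProduct, smul_dotProduct, h3, h4, h5, h6]
  simp

lemma Gval_add (α l : ℂ) (P X : Fin 4 → ℂ) (t : ℂ) : Gval α l P (t • P + X) = Gval α l P X := by
  obtain ⟨h1, h2, h3, h4, h5, h6, h7⟩ := minor_P α P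
  simp only [Gval, dotProduct_add, dotProduct_smul, h1, h2, h3, h4, h5, h6, h7, smul_zero,
    zero_add]

/-- The cubic cone restricted to the four lines. -/
lemma Gval_pt (α l : ℂ) (hα : α ^ 2 - α + 1 = 0) (P : Fin 4 → ℂ) (i : Fin 4) (w0 w1 : ℂ) :
    Gval α l P (pt α i w0 w1) =
      (l * cA α P i ^ 3 - cB α P i ^ 3) * (w1 ^ 3 - l * w0 ^ 3) := by
  fin_cases i
  · simp [Gval, m00, m11, m01, m10, mx, my, cb, pt, pc, rc, cA, cB, dotProduct,
      Fin.sum_univ_four]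
    ring
  · simp [Gval, m00, m11, m01, m10, mx, my, cb, pt, pc, rc, cA, cB, dotProduct,
      Fin.sum_univ_four]
    ring
  · simp [Gval, m00, m11, m01, m10, mx, my, cb, pt, pc, rc, cA, cB, dotProduct,
      Fin.sum_univ_four]
    ring
  · simp only [Gval, m00, m11, m01, m10, mx, my, cb, pt, pc, rc, cA, cB, dotProduct,
      Fin.sum_univ_four, Fin.reduceFinMk, Matrix.cons_val, Pi.add_apply, Pi.sub_apply,
      Pi.smul_apply, smul_eq_mul]
    generalize P 0 = u0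
    generalize P 1 = u1
    generalize P 2 = v0
    generalize P 3 = v1
    linear_combination ((-2) * α * l * u0 ^ 3 * w1 ^ 3 + 6 * α * l * u0 ^ 2 * v0 * w1 ^ 3 + 6 * α * l * u0 ^ 2 * v1 * w0 * w1 ^ 2 + (-6) * α * l * u0 * v0 ^ 2 * w1 ^ 3 + (-12) * α * l * u0 * v0 * v1 * w0 * w1 ^ 2 + (-6) * α * l * u0 * v1 ^ 2 * w0 ^ 2 * w1 + 2 * α * l * u1 ^ 3 * w0 ^ 3 + (-6) * α * l * u1 ^ 2 * v0 * w0 ^ 2 * w1 + (-6) * α * l * u1 ^ 2 * v1 * w0 ^ 3 + 6 * α * l * u1 * v0 ^ 2 * w0 * w1 ^ 2 + 12 * α * l * u1 * v0 * v1 * w0 ^ 2 * w1 + 6 * α * l * u1 * v1 ^ 2 * w0 ^ 3 + l * u0 ^ 3 * w1 ^ 3 + (-3) * l * u0 ^ 2 * v0 * w1 ^ 3 + (-3) * l * u0 ^ 2 * v1 * w0 * w1 ^ 2 + 3 * l * u0 * v0 ^ 2 * w1 ^ 3 + 6 * l * u0 * v0 * v1 * w0 * w1 ^ 2 + 3 * l * u0 * v1 ^ 2 * w0 ^ 2 * w1 + (-1) * l * u1 ^ 3 * w0 ^ 3 + 3 * l * u1 ^ 2 * v0 * w0 ^ 2 * w1 + 3 * l * u1 ^ 2 * v1 * w0 ^ 3 + (-3) * l * u1 * v0 ^ 2 * w0 * w1 ^ 2 +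 (-6) * l * u1 * v0 * v1 * w0 ^ 2 * w1 + (-3) * l * u1 * v1 ^ 2 * w0 ^ 3) * hα

/-- The determinants of the directions of the four lines. -/
lemma cases_D (α : ℂ) (hα : α ^ 2 - α + 1 = 0) {i k : Fin 4} (hik : i ≠ k) :
    (pc i * rc α k - rc α i * pc k) ^ 3 ≠ 0 ∧
      (pc i * rc (1 - α) k - rc (1 - α) i * pc k) ^ 3 =
        (pc i * rc α k - rc α i * pc k) ^ 3 := by
  have e0 : α ^ 3 = -1 := by linear_combination (α + 1) * hα
  have e1 : (1 - α) ^ 3 = -1 := by linear_combination (2 - α) * hα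
  have e2 : (α - 1) ^ 3 = 1 := by linear_combination (α - 2) * hα
  have e3 : (-α) ^ 3 = 1 := by linear_combination -(α + 1) * hα
  have f0 : α ≠ 0 := by
    rintro rfl
    norm_num at hα
  have f1 : α - 1 ≠ 0 := by
    intro h
    rw [h] at e2
    norm_num at e2
  have f2 : 1 - α ≠ 0 := by
    intro h
    apply f1
    linear_combination -h
  fin_cases i <;> fin_cases k <;> simp [pc, rc] at hik ⊢
  · exact ⟨f0, by rw [e0, e1]⟩
  · exact ⟨f1, by rw [e2, e3]⟩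
  · exact ⟨f0, by rw [e2, e3]⟩
  · exact ⟨f2, by rw [e0, e1]⟩

/-- The points of one line with `w1 ^ 3 = l * w0 ^ 3` are not in the planes of the other lines. -/
lemma pl_pt_ne_zero (α l : ℂ) (hα : α ^ 2 - α + 1 = 0) (P : Fin 4 → ℂ) {i k : Fin 4}
    (hik : i ≠ k) {w0 w1 : ℂ} (hw0 : w0 ≠ 0) (hw : w1 ^ 3 = l * w0 ^ 3)
    (hc : l * cA α P k ^ 3 - cB α P k ^ 3 ≠ 0) : pl α P k ⬝ᵥ pt α i w0 w1 ≠ 0 := by
  intro h
  rw [pl_pt] at h
  have hD := cases_D α hα hik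
  obtain ⟨hD1, hD2⟩ := hD
  set D := pc i * rc α k - rc α i * pc k
  set D' := pc i * rc (1 - α) k - rc (1 - α) i * pc k
  have h1 : (w0 * D * cB α P k) ^ 3 = (w1 * D' * cA α P k) ^ 3 := by
    rw [sub_eq_zero.mp h]
  have h2 : w0 ^ 3 * D ^ 3 * (l * cA α P k ^ 3 - cB α P k ^ 3) = 0 := by
    have h3 : w1 ^ 3 * D' ^ 3 * cA α P k ^ 3 = w0 ^ 3 * D ^ 3 * cB α P k ^ 3 := by
      linear_combination -h1
    rw [hw, hD2] at h3
    linear_combination h3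
  rcases mul_eq_zero.mp h2 with h3 | h3
  · rcases mul_eq_zero.mp h3 with h4 | h4
    · exact hw0 (pow_eq_zero_iff (by norm_num) |>.mp h4)
    · exact hD1 h4
  · exact hc h3

end Pool.Agent.H732_geproci
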