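import Mathlib
import Pool.Agent.H732_geproci.Alg

/-!
# The family of 24 points on four skew lines, and its projections
-/

set_option autoImplicit false
set_option maxHeartbeats 400000

open MvPolynomial Matrix

namespace Pool.Agent.H732_geproci

/-- The six parameters. -/
def sg (α ρ : ℂ) : Fin 6 → ℂ := ![1, α - 1, -α, ρ, (α - 1) * ρ, -α * ρ]

lemma root_iff {α : ℂ} (hα : α ^ 2 - α + 1 = 0) (ρ x : ℂ) :
    (x ^ 3 - 1) * (x ^ 3 - ρ ^ 3) = 0 ↔ ∃ j, x = sg α ρ j := by
  have h1 : (x ^ 3 - 1) * (x ^ 3 - ρ ^ 3) =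
      ((x - 1) * (x - (α - 1)) * (x - (-α))) *
        ((x - ρ) * (x - (α - 1) * ρ) * (x - (-α * ρ))) := by
    have e1 : x ^ 3 - 1 = (x - 1) * (x - (α - 1)) * (x - (-α)) := by
      linear_combination -(1 - x) * hα
    have e2 : x ^ 3 - ρ ^ 3 = (x - ρ) * (x - (α - 1) * ρ) * (x - (-α * ρ)) := by
      linear_combination -(ρ ^ 3 - x * ρ ^ 2) * hα
    rw [e1, e2]
  rw [h1]
  simp only [mul_eq_zero, sub_eq_zero, Fin.exists_fin_succ, sg, Fin.exists_fin_zero]
  simp only [Matrix.cons_val_zero, Matrix.cons_val_succ]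
  tauto

/-- The vectors of the 24 points. -/
def zvec (α ρ : ℂ) (q : Fin 4 × Fin 6) : Fin 4 → ℂ := pt α q.1 1 (sg α ρ q.2)

lemma pt_ne_zero (α : ℂ) (i : Fin 4) (w0 w1 : ℂ) (h : w0 ≠ 0) : pt α i w0 w1 ≠ 0 := by
  intro h0
  fin_cases i
  · have := congrFun h0 0
    simp [pt, pc] at this
    exact h this
  · have := congrFun h0 2
    simp [pt, rc] at this
    exact h this
  · have := congrFun h0 0
    simp [pt, pc] at this
    exact h this
  · have := congrFun h0 0
    simp [pt, pc] at this
    exact h this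

lemma pt_smul (α : ℂ) (i : Fin 4) (w0 w1 c : ℂ) :
    c • pt α i w0 w1 = pt α i (c * w0) (c * w1) := by
  funext j
  fin_cases j <;> simp [pt] <;> ring

lemma pt_add (α : ℂ) (i : Fin 4) (w0 w1 w0' w1' : ℂ) :
    pt α i w0 w1 + pt α i w0' w1' = pt α i (w0 + w0') (w1 + w1') := by
  funext j
  fin_cases j <;> simp [pt] <;> ring

lemma zvec_ne_zero (α ρ : ℂ) (q : Fin 4 × Fin 6) : zvec α ρ q ≠ 0 :=
  pt_ne_zero α q.1 1 _ one_ne_zero

/-- The 24 points. -/
noncomputable def zpt (α ρ : ℂ) (q : Fin 4 × Fin 6) : P3 :=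
  Projectivization.mk ℂ (zvec α ρ q) (zvec_ne_zero α ρ q)

/-- The set of the 24 points. -/
noncomputable def Zs (α ρ : ℂ) : Set P3 := Set.range (zpt α ρ)

lemma zpt_submodule (α ρ : ℂ) (q : Fin 4 × Fin 6) :
    (zpt α ρ q).submodule = Submodule.span ℂ {zvec α ρ q} := by
  rw [zpt, Projectivization.submodule_mk]

/-- The derivative of a polynomial in a direction. -/
lemma hasDerivAt_eval {m : ℕ} (F : MvPolynomial (Fin m) ℂ) (y δ : Fin m → ℂ) :
    HasDerivAt (fun τ : ℂ => eval (y + τ • δ) F) (∑ i, δ i * eval y (pderiv i F)) 0 := by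
  induction F using MvPolynomial.induction_on with
  | C a =>
    simp only [eval_C, pderiv_C, map_zero, mul_zero, Finset.sum_const_zero]
    exact hasDerivAt_const _ _
  | add p q hp hq =>
    have h := hp.add hq
    simp only [map_add, mul_add, Finset.sum_add_distrib]
    exact h
  | mul_X p j hp =>
    have h1 : HasDerivAt (fun τ : ℂ => (y + τ • δ) j) (δ j) 0 := by
      have h2 : (fun τ : ℂ => (y + τ • δ) j) = fun τ : ℂ => y j + τ * δ j := by
        funext τ
        simp
      rw [h2]
      have h3 := ((hasDerivAt_id (0 : ℂ)).mul_const (δ j)).const_add (y j)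
      simpa using h3
    have h := hp.mul h1
    have e1 : (fun τ : ℂ => eval (y + τ • δ) (p * X j)) =
        (fun τ : ℂ => eval (y + τ • δ) p) * fun τ : ℂ => (y + τ • δ) j := by
      funext τ
      simp
    have e2 : (∑ i, δ i * eval y (pderiv i (p * X j))) =
        (∑ i, δ i * eval y (pderiv i p)) * (y + (0 : ℂ) • δ) j +
          eval (y + (0 : ℂ) • δ) p * δ j := by
      simp only [zero_smul, add_zero, pderiv_mul, map_add, map_mul, eval_X, pderiv_X,
        Finset.sum_mul, mul_add, Finset.sum_add_distrib]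
      congr 1
      · exact Finset.sum_congr rfl (fun i _ => by ring)
      · rw [Finset.sum_eq_single j]
        · simp [Pi.single_eq_same]
          ring
        · intro i _ hij
          rw [Pi.single_eq_of_ne hij.symm]
          simp
        · intro h
          exact absurd (Finset.mem_univ j) h
    rw [e1, e2]
    exact h

end Pool.Agent.H732_geproci
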