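import Mathlib
import Pool.Agent.H732_geproci.Fam

/-!
# The family of 24 points is (4, 6)-geproci
-/

set_option autoImplicit false
set_option maxHeartbeats 400000

open MvPolynomial Matrix

namespace Pool.Agent.H732_geproci

/-- The linear form on the plane given by a linear form on the space. -/
noncomputable def lf (s : (Fin 3 → ℂ) →ₗ[ℂ] (Fin 4 → ℂ)) (c : Fin 4 → ℂ) :
    MvPolynomial (Fin 3) ℂ :=
  ∑ j, C (c ⬝ᵥ s (Pi.single j 1)) * X j

lemma eval_lf (s : (Fin 3 → ℂ) →ₗ[ℂ] (Fin 4 → ℂ)) (c : Fin 4 → ℂ) (y : Fin 3 → ℂ) :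
    eval y (lf s c) = c ⬝ᵥ s y := by
  have h : y = ∑ j, y j • (Pi.single j (1 : ℂ) : Fin 3 → ℂ) := by
    funext i
    simp [Finset.sum_apply, Pi.single_apply]
  conv_rhs => rw [h]
  rw [map_sum, dotProduct_sum]
  simp only [lf, map_sum, map_mul, eval_C, eval_X, map_smul, dotProduct_smul, smul_eq_mul]
  exact Finset.sum_congr rfl (fun j _ => mul_comm _ _)

lemma lf_homogeneous (s : (Fin 3 → ℂ) →ₗ[ℂ] (Fin 4 → ℂ)) (c : Fin 4 → ℂ) :
    (lf s c).IsHomogeneous 1 :=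
  IsHomogeneous.sum _ _ _ (fun j _ => isHomogeneous_C_mul_X _ j)

/-- The quartic: four lines. -/
noncomputable def Fp (s : (Fin 3 → ℂ) →ₗ[ℂ] (Fin 4 → ℂ)) (α : ℂ) (P : Fin 4 → ℂ) :
    MvPolynomial (Fin 3) ℂ := ∏ k : Fin 4, lf s (pl α P k)

/-- The cubic. -/
noncomputable def Gp (s : (Fin 3 → ℂ) →ₗ[ℂ] (Fin 4 → ℂ)) (α l : ℂ) (P : Fin 4 → ℂ) :
    MvPolynomial (Fin 3) ℂ :=
  lf s (m11 P) ^ 3 + C (l ^ 2) * lf s (m00 P) ^ 3 -
    C l * (lf s (m10 P) ^ 3 + lf s (m01 P) ^ 3) +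
    C l * (lf s (mx P) * lf s (my P) * lf s (cb α P))

lemma eval_Fp (s : (Fin 3 → ℂ) →ₗ[ℂ] (Fin 4 → ℂ)) (α : ℂ) (P : Fin 4 → ℂ) (y : Fin 3 → ℂ) :
    eval y (Fp s α P) = ∏ k, (pl α P k ⬝ᵥ s y) := by
  rw [Fp, map_prod]
  exact Finset.prod_congr rfl (fun k _ => eval_lf _ _ _)

lemma eval_Gp (s : (Fin 3 → ℂ) →ₗ[ℂ] (Fin 4 → ℂ)) (α l : ℂ) (P : Fin 4 → ℂ) (y : Fin 3 → ℂ) :
    eval y (Gp s α l P) = Gval α l P (s y) := by
  simp only [Gp, Gval, map_add, map_sub, map_mul, map_pow, eval_C, eval_lf]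

lemma Fp_homogeneous (s : (Fin 3 → ℂ) →ₗ[ℂ] (Fin 4 → ℂ)) (α : ℂ) (P : Fin 4 → ℂ) :
    (Fp s α P).IsHomogeneous 4 := by
  have h := IsHomogeneous.prod (Finset.univ : Finset (Fin 4)) (fun k => lf s (pl α P k))
    (fun _ => 1) (fun k _ => lf_homogeneous s _)
  have h4 : ∑ _k : Fin 4, 1 = 4 := by simp
  rw [h4] at h
  exact h

lemma Gp_homogeneous (s : (Fin 3 → ℂ) →ₗ[ℂ] (Fin 4 → ℂ)) (α l : ℂ) (P : Fin 4 → ℂ) :
    (Gp s α l P).IsHomogeneous 3 := by
  have hc : ∀ c, (lf s c ^ 3).IsHomogeneous 3 := fun c => (lf_homogeneous s c).pow 3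
  have h3 : (lf s (mx P) * lf s (my P) * lf s (cb α P)).IsHomogeneous 3 :=
    ((lf_homogeneous s _).mul (lf_homogeneous s _)).mul (lf_homogeneous s _)
  exact (((hc _).add ((hc _).C_mul _)).sub (((hc _).add (hc _)).C_mul _)).add (h3.C_mul _)

/-- The polynomial whose zero set contains the special points. -/
noncomputable def gA (α : ℂ) (i : Fin 4) : MvPolynomial (Fin 4) ℂ :=
  C (rc α i) * X 0 - C (pc i) * X 2

/-- The polynomial whose zero set contains the special points. -/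
noncomputable def gB (α : ℂ) (i : Fin 4) : MvPolynomial (Fin 4) ℂ :=
  C (rc (1 - α) i) * X 1 - C (pc i) * X 3

/-- The polynomial whose zero set contains the special points. -/
noncomputable def gg (α ρ : ℂ) : MvPolynomial (Fin 4) ℂ :=
  ∏ i : Fin 4, (gA α i * ((gA α i ^ 3 - gB α i ^ 3) * (C (ρ ^ 3) * gA α i ^ 3 - gB α i ^ 3)))

lemma eval_gA (α : ℂ) (i : Fin 4) (P : Fin 4 → ℂ) : eval P (gA α i) = cA α P i := by
  simp only [gA, cA, map_sub, map_mul, eval_C, eval_X]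
  ring

lemma eval_gB (α : ℂ) (i : Fin 4) (P : Fin 4 → ℂ) : eval P (gB α i) = cB α P i := by
  simp only [gB, cB, map_sub, map_mul, eval_C, eval_X]
  ring

lemma eval_gg (α ρ : ℂ) (P : Fin 4 → ℂ) : eval P (gg α ρ) =
    ∏ i : Fin 4, (cA α P i * ((cA α P i ^ 3 - cB α P i ^ 3) *
      (ρ ^ 3 * cA α P i ^ 3 - cB α P i ^ 3))) := by
  simp only [gg, map_prod, map_mul, map_sub, map_pow, eval_C, eval_gA, eval_gB]

lemma gg_ne_zero (α ρ : ℂ) : gg α ρ ≠ 0 := by
  have key : ∀ (i : Fin 4) (l : ℂ), C l * gA α i ^ 3 - gB α i ^ 3 ≠ 0 := by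
    intro i l h
    have h1 := congrArg (eval (![0, (if i = 1 then 1 else 0), 0, (if i = 1 then 0 else 1)] :
      Fin 4 → ℂ)) h
    rw [map_sub, map_mul, map_pow, map_pow, eval_gA, eval_gB, eval_C, map_zero] at h1
    fin_cases i <;> simp [cA, cB, pc, rc] at h1
  rw [gg, Finset.prod_ne_zero_iff]
  intro i _
  refine mul_ne_zero ?_ (mul_ne_zero ?_ (key i _))
  · intro h
    have h1 := congrArg (eval (![(if i = 1 then 1 else 0), 0, (if i = 1 then 0 else 1), 0] :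
      Fin 4 → ℂ)) h
    rw [eval_gA, map_zero] at h1
    fin_cases i <;> simp [cA, pc, rc] at h1
  · have := key i 1
    rwa [C_1, one_mul] at this

/-- The projection seen from a section. -/
lemma section_apply {π : (Fin 4 → ℂ) →ₗ[ℂ] (Fin 3 → ℂ)} {s : (Fin 3 → ℂ) →ₗ[ℂ] (Fin 4 → ℂ)}
    {P : Fin 4 → ℂ} (hs : ∀ y, π (s y) = y) (hker : LinearMap.ker π = Submodule.span ℂ {P})
    (v : Fin 4 → ℂ) : ∃ t : ℂ, s (π v) = t • P + v := by
  have h1 : s (π v) - v ∈ LinearMap.ker π := by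
    rw [LinearMap.mem_ker, map_sub, hs, sub_self]
  rw [hker, Submodule.mem_span_singleton] at h1
  obtain ⟨t, ht⟩ := h1
  exact ⟨t, by rw [ht]; abel⟩

/-- Membership in the image of `Zs`. -/
lemma mem_image_iff {π : (Fin 4 → ℂ) →ₗ[ℂ] (Fin 3 → ℂ)} {α ρ : ℂ} (x : P2) :
    x ∈ image π (Zs α ρ) ↔ ∃ q, ∃ c : ℂ, c ≠ 0 ∧ x.rep = c • π (zvec α ρ q) := by
  constructor
  · rintro ⟨_, ⟨q, rfl⟩, hx⟩
    rw [zpt_submodule, Submodule.map_span, Set.image_singleton, Projectivization.submodule_eq]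
      at hx
    have h1 : x.rep ∈ Submodule.span ℂ {π (zvec α ρ q)} := by
      rw [← hx]
      exact Submodule.mem_span_singleton_self _
    rw [Submodule.mem_span_singleton] at h1
    obtain ⟨c, hc⟩ := h1
    refine ⟨q, c, ?_, hc.symm⟩
    rintro rfl
    rw [zero_smul] at hc
    exact x.rep_nonzero hc.symm
  · rintro ⟨q, c, hc, hx⟩
    refine ⟨zpt α ρ q, ⟨q, rfl⟩, ?_⟩
    rw [zpt_submodule, Submodule.map_span, Set.image_singleton, Projectivization.submodule_eq,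
      hx]
    exact Submodule.span_singleton_smul_eq (IsUnit.mk0 c hc) _

/-- **The set of 24 points is (4, 6)-geproci.** -/
theorem Zs_geproci {α ρ : ℂ} (hα : α ^ 2 - α + 1 = 0) (hρ0 : ρ ≠ 0) (hρ : ρ ^ 3 ≠ 1) :
    IsGeproci 4 6 (Zs α ρ) := by
  classical
  refine ⟨Set.finite_range _, by norm_num, by norm_num, gg α ρ, gg_ne_zero α ρ, ?_⟩
  intro P hP π hπ hker
  rw [eval_gg, Finset.prod_ne_zero_iff] at hP
  have hA : ∀ i, cA α P i ≠ 0 := fun i => left_ne_zero_of_mul (hP i (Finset.mem_univ i))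
  have hc1 : ∀ i, 1 * cA α P i ^ 3 - cB α P i ^ 3 ≠ 0 := fun i => by
    rw [one_mul]
    exact left_ne_zero_of_mul (right_ne_zero_of_mul (hP i (Finset.mem_univ i)))
  have hcρ : ∀ i, ρ ^ 3 * cA α P i ^ 3 - cB α P i ^ 3 ≠ 0 := fun i =>
    right_ne_zero_of_mul (right_ne_zero_of_mul (hP i (Finset.mem_univ i)))
  obtain ⟨s, hs'⟩ := LinearMap.exists_rightInverse_of_surjective π
    (LinearMap.range_eq_top.mpr hπ)
  have hs : ∀ y, π (s y) = y := fun y => by
    have := congrArg (fun f => f y) hs'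
    simpa using this
  have hpiP : π P = 0 := by
    have : P ∈ LinearMap.ker π := by
      rw [hker]
      exact Submodule.mem_span_singleton_self P
    exact this
  -- values of the quartic and the sextic along `t • P + pt`
  have hF0 : ∀ (k : Fin 4) (t w0 w1 : ℂ) (y : Fin 3 → ℂ), s y = t • P + pt α k w0 w1 →
      eval y (Fp s α P) = 0 := by
    intro k t w0 w1 y hy
    rw [eval_Fp]
    apply Finset.prod_eq_zero (Finset.mem_univ k)
    rw [hy, dotProduct_add, dotProduct_smul, pl_P, pl_pt_self, smul_zero, add_zero]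
  have hG0 : ∀ (k : Fin 4) (t w0 w1 : ℂ) (y : Fin 3 → ℂ), s y = t • P + pt α k w0 w1 →
      eval y (Gp s α 1 P * Gp s α (ρ ^ 3) P) =
        ((1 * cA α P k ^ 3 - cB α P k ^ 3) * (ρ ^ 3 * cA α P k ^ 3 - cB α P k ^ 3)) *
          ((w1 ^ 3 - w0 ^ 3) * (w1 ^ 3 - ρ ^ 3 * w0 ^ 3)) := by
    intro k t w0 w1 y hy
    rw [map_mul, eval_Gp, eval_Gp, hy, Gval_add, Gval_add, Gval_pt α _ hα, Gval_pt α _ hα]
    ring
  -- the common zeros
  have hzero : ∀ x : P2, (eval x.rep (Fp s α P) = 0 ∧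
      eval x.rep (Gp s α 1 P * Gp s α (ρ ^ 3) P) = 0) ↔
      ∃ (k : Fin 4) (t w0 w1 : ℂ), s x.rep = t • P + pt α k w0 w1 ∧ w0 ≠ 0 ∧
        (w1 ^ 3 - w0 ^ 3) * (w1 ^ 3 - ρ ^ 3 * w0 ^ 3) = 0 := by
    intro x
    constructor
    · rintro ⟨h1, h2⟩
      rw [eval_Fp, Finset.prod_eq_zero_iff] at h1
      obtain ⟨k, _, hk⟩ := h1
      obtain ⟨t, w0, w1, hX⟩ := exists_of_pl_eq_zero α P k (hA k) _ hk
      rw [hG0 k t w0 w1 _ hX] at h2
      have h3 := (mul_eq_zero.mp h2).resolve_left (mul_ne_zero (hc1 k) (hcρ k))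
      refine ⟨k, t, w0, w1, hX, ?_, h3⟩
      rintro rfl
      have h4 : w1 = 0 := by
        have h5 : w1 ^ 6 = 0 := by linear_combination h3
        exact pow_eq_zero_iff (by norm_num) |>.mp h5
      subst h4
      have h5 : pt α k 0 0 = 0 := by
        have := pt_smul α k 0 0 0
        rw [zero_smul] at this
        simpa using this.symm
      rw [h5, add_zero] at hX
      apply x.rep_nonzero
      rw [← hs x.rep, hX, map_smul, hpiP, smul_zero]
    · rintro ⟨k, t, w0, w1, hX, _, h3⟩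
      exact ⟨hF0 k t w0 w1 _ hX, by rw [hG0 k t w0 w1 _ hX, h3, mul_zero]⟩
  have himage : ∀ x : P2, x ∈ image π (Zs α ρ) ↔
      ∃ (k : Fin 4) (t w0 w1 : ℂ), s x.rep = t • P + pt α k w0 w1 ∧ w0 ≠ 0 ∧
        (w1 ^ 3 - w0 ^ 3) * (w1 ^ 3 - ρ ^ 3 * w0 ^ 3) = 0 := by
    intro x
    rw [mem_image_iff]
    constructor
    · rintro ⟨⟨k, j⟩, c, hc, hx⟩
      obtain ⟨t, ht⟩ := section_apply hs hker (zvec α ρ (k, j))
      refine ⟨k, c * t, c * 1, c * sg α ρ j, ?_, by rwa [mul_one], ?_⟩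
      · rw [hx, map_smul, ht, smul_add, ← pt_smul, smul_smul]
        rfl
      · have hr := (root_iff hα ρ (sg α ρ j)).mpr ⟨j, rfl⟩
        linear_combination c ^ 6 * hr
    · rintro ⟨k, t, w0, w1, hX, hw0, h3⟩
      have hr : ((w1 / w0) ^ 3 - 1) * ((w1 / w0) ^ 3 - ρ ^ 3) = 0 := by
        field_simp
        linear_combination h3
      obtain ⟨j, hj⟩ := (root_iff hα ρ _).mp hr
      refine ⟨(k, j), w0, hw0, ?_⟩
      have h5 : x.rep = π (t • P + pt α k w0 w1) := by rw [← hX, hs]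
      rw [h5, map_add, map_smul, hpiP, smul_zero, zero_add, ← map_smul]
      congr 1
      show pt α k w0 w1 = w0 • pt α k 1 (sg α ρ j)
      rw [pt_smul, ← hj, mul_one, mul_div_cancel₀ _ hw0]
  refine ⟨Fp s α P, Gp s α 1 P * Gp s α (ρ ^ 3) P, Fp_homogeneous s α P,
    (Gp_homogeneous s α 1 P).mul (Gp_homogeneous s α _ P), ?_, ?_⟩
  · intro x
    rw [hzero, himage]
  · intro x hx
    rw [himage] at hx
    obtain ⟨k, t, w0, w1, hX, hw0, h3⟩ := hx
    -- direction along the line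
    obtain ⟨t1, ht1⟩ := section_apply hs hker (pt α k 0 1)
    have hs1 : ∀ τ : ℂ, s (x.rep + τ • π (pt α k 0 1)) =
        (t + τ * t1) • P + pt α k w0 (w1 + τ) := by
      intro τ
      rw [map_add, map_smul, hX, ht1, smul_add, pt_smul, smul_smul]
      have e1 : pt α k w0 (w1 + τ) = pt α k w0 w1 + pt α k (τ * 0) (τ * 1) := by
        rw [pt_add, mul_zero, mul_one, add_zero]
      rw [e1, add_smul]
      abel
    have hdF1 := hasDerivAt_eval (Fp s α P) x.rep (π (pt α k 0 1))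
    have hdG1 := hasDerivAt_eval (Gp s α 1 P * Gp s α (ρ ^ 3) P) x.rep (π (pt α k 0 1))
    have eF1 : (∑ i, (π (pt α k 0 1)) i * eval x.rep (pderiv i (Fp s α P))) = 0 := by
      have e1 : (fun τ : ℂ => eval (x.rep + τ • π (pt α k 0 1)) (Fp s α P)) = fun _ => 0 := by
        funext τ
        exact hF0 k _ _ _ _ (hs1 τ)
      rw [e1] at hdF1
      exact hdF1.unique (hasDerivAt_const _ _)
    have eG1 : (∑ i, (π (pt α k 0 1)) i *
        eval x.rep (pderiv i (Gp s α 1 P * Gp s α (ρ ^ 3) P))) =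
        ((1 * cA α P k ^ 3 - cB α P k ^ 3) * (ρ ^ 3 * cA α P k ^ 3 - cB α P k ^ 3)) *
          (3 * w1 ^ 2 * (w1 ^ 3 - ρ ^ 3 * w0 ^ 3) + (w1 ^ 3 - w0 ^ 3) * (3 * w1 ^ 2)) := by
      have e1 : (fun τ : ℂ => eval (x.rep + τ • π (pt α k 0 1))
          (Gp s α 1 P * Gp s α (ρ ^ 3) P)) = fun τ : ℂ =>
          ((1 * cA α P k ^ 3 - cB α P k ^ 3) * (ρ ^ 3 * cA α P k ^ 3 - cB α P k ^ 3)) *
          (((w1 + τ) ^ 3 - w0 ^ 3) * ((w1 + τ) ^ 3 - ρ ^ 3 * w0 ^ 3)) := by
        funext τ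
        exact hG0 k _ _ _ _ (hs1 τ)
      rw [e1] at hdG1
      refine hdG1.unique ?_
      have e2 : HasDerivAt (fun τ : ℂ => w1 + τ) 1 0 := by
        simpa using (hasDerivAt_id (0 : ℂ)).const_add w1
      have e3 : ∀ c : ℂ, HasDerivAt (fun τ : ℂ => (w1 + τ) ^ 3 - c) (3 * w1 ^ 2) 0 := by
        intro c
        have := (e2.pow 3).sub_const c
        simpa using this
      have e4 := ((e3 (w0 ^ 3)).mul (e3 (ρ ^ 3 * w0 ^ 3))).const_mul
        ((1 * cA α P k ^ 3 - cB α P k ^ 3) * (ρ ^ 3 * cA α P k ^ 3 - cB α P k ^ 3))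
      simpa using e4
    have hG1ne : (∑ i, (π (pt α k 0 1)) i *
        eval x.rep (pderiv i (Gp s α 1 P * Gp s α (ρ ^ 3) P))) ≠ 0 := by
      rw [eG1]
      refine mul_ne_zero (mul_ne_zero (hc1 k) (hcρ k)) ?_
      have hw03 : w0 ^ 3 ≠ 0 := pow_ne_zero _ hw0
      have hρ1 : ρ ^ 3 - 1 ≠ 0 := sub_ne_zero.mpr hρ
      rcases mul_eq_zero.mp h3 with h4 | h4
      · have hw1 : w1 ≠ 0 := by
          rintro rfl
          apply hw03
          linear_combination -h4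
        have e1 : 3 * w1 ^ 2 * (w1 ^ 3 - ρ ^ 3 * w0 ^ 3) + (w1 ^ 3 - w0 ^ 3) * (3 * w1 ^ 2) =
            -(3 * w1 ^ 2 * (w0 ^ 3 * (ρ ^ 3 - 1))) := by
          linear_combination (6 * w1 ^ 2) * h4
        rw [e1]
        exact neg_ne_zero.mpr (mul_ne_zero (mul_ne_zero (by norm_num) (pow_ne_zero _ hw1))
          (mul_ne_zero hw03 hρ1))
      · have hw1 : w1 ≠ 0 := by
          rintro rfl
          have h5 : ρ ^ 3 * w0 ^ 3 = 0 := by linear_combination -h4
          rcases mul_eq_zero.mp h5 with h6 | h6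
          · exact hρ0 (pow_eq_zero_iff (by norm_num) |>.mp h6)
          · exact hw03 h6
        have e1 : 3 * w1 ^ 2 * (w1 ^ 3 - ρ ^ 3 * w0 ^ 3) + (w1 ^ 3 - w0 ^ 3) * (3 * w1 ^ 2) =
            3 * w1 ^ 2 * (w0 ^ 3 * (ρ ^ 3 - 1)) := by
          linear_combination (6 * w1 ^ 2) * h4
        rw [e1]
        exact mul_ne_zero (mul_ne_zero (by norm_num) (pow_ne_zero _ hw1))
          (mul_ne_zero hw03 hρ1)
    -- a direction off the line
    obtain ⟨v, hv⟩ : ∃ v : Fin 4 → ℂ, pl α P k ⬝ᵥ v ≠ 0 := by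
      have hk := hA k
      fin_cases k
      · refine ⟨Pi.single 3 1, ?_⟩
        rw [dotProduct_single]
        simpa [pl, pc] using hk
      · refine ⟨Pi.single 1 1, ?_⟩
        rw [dotProduct_single]
        simpa [pl, rc] using hk
      · refine ⟨Pi.single 3 1, ?_⟩
        rw [dotProduct_single]
        simpa [pl, pc] using hk
      · refine ⟨Pi.single 3 1, ?_⟩
        rw [dotProduct_single]
        simpa [pl, pc] using hk
    have hF2ne : (∑ i, (π v) i * eval x.rep (pderiv i (Fp s α P))) ≠ 0 := by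
      have hdF2 := hasDerivAt_eval (Fp s α P) x.rep (π v)
      obtain ⟨t2, ht2⟩ := section_apply hs hker v
      have hk0 : pl α P k ⬝ᵥ s x.rep = 0 := by
        rw [hX, dotProduct_add, dotProduct_smul, pl_P, pl_pt_self, smul_zero, add_zero]
      have hkv : pl α P k ⬝ᵥ s (π v) = pl α P k ⬝ᵥ v := by
        rw [ht2, dotProduct_add, dotProduct_smul, pl_P, smul_zero, zero_add]
      have e1 : (fun τ : ℂ => eval (x.rep + τ • π v) (Fp s α P)) = fun τ : ℂ =>
          τ * ((pl α P k ⬝ᵥ v) * ∏ j ∈ Finset.univ.erase k, (pl α P j ⬝ᵥ s (x.rep + τ • π v))) := by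
        funext τ
        rw [eval_Fp, ← Finset.mul_prod_erase _ _ (Finset.mem_univ k), map_add, map_smul,
          dotProduct_add, dotProduct_smul, hk0, hkv, zero_add, smul_eq_mul, mul_assoc]
      have e2 : HasDerivAt (fun τ : ℂ =>
          τ * ((pl α P k ⬝ᵥ v) * ∏ j ∈ Finset.univ.erase k, (pl α P j ⬝ᵥ s (x.rep + τ • π v))))
          ((pl α P k ⬝ᵥ v) * ∏ j ∈ Finset.univ.erase k, (pl α P j ⬝ᵥ s x.rep)) 0 := by
        have hd : DifferentiableAt ℂ (fun τ : ℂ => (pl α P k ⬝ᵥ v) *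
            ∏ j ∈ Finset.univ.erase k, (pl α P j ⬝ᵥ s (x.rep + τ • π v))) 0 := by
          apply DifferentiableAt.const_mul
          apply DifferentiableAt.fun_finsetProd
          intro j _
          simp only [map_add, map_smul, dotProduct_add, dotProduct_smul, smul_eq_mul]
          exact ((differentiableAt_id).mul_const _).const_add _
        have h4 := (hasDerivAt_id (0 : ℂ)).mul hd.hasDerivAt
        simp only [id_eq, zero_mul, add_zero, one_mul, zero_smul] at h4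
        exact h4
      rw [e1] at hdF2
      rw [hdF2.unique e2]
      refine mul_ne_zero hv (Finset.prod_ne_zero_iff.mpr ?_)
      intro j hj
      have hjk : k ≠ j := (Finset.ne_of_mem_erase hj).symm
      rw [hX, dotProduct_add, dotProduct_smul, pl_P, smul_zero, zero_add]
      rcases mul_eq_zero.mp h3 with h4 | h4
      · exact pl_pt_ne_zero α 1 hα P hjk hw0 (by linear_combination h4) (hc1 j)
      · exact pl_pt_ne_zero α (ρ ^ 3) hα P hjk hw0 (by linear_combination h4) (hcρ j)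
    -- independence of the gradients
    rw [LinearIndependent.pair_iff]
    intro a b hab
    have hdir : ∀ δ : Fin 3 → ℂ, a * (∑ i, δ i * eval x.rep (pderiv i (Fp s α P))) +
        b * (∑ i, δ i * eval x.rep (pderiv i (Gp s α 1 P * Gp s α (ρ ^ 3) P))) = 0 := by
      intro δ
      rw [Finset.mul_sum, Finset.mul_sum, ← Finset.sum_add_distrib]
      apply Finset.sum_eq_zero
      intro i _
      have := congrFun hab i
      simp only [Pi.add_apply, Pi.smul_apply, smul_eq_mul, Pi.zero_apply] at this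
      linear_combination δ i * this
    have hb : b = 0 := by
      have h4 := hdir (π (pt α k 0 1))
      rw [eF1, mul_zero, zero_add] at h4
      exact (mul_eq_zero.mp h4).resolve_right hG1ne
    subst hb
    have h4 := hdir (π v)
    rw [zero_mul, add_zero] at h4
    exact ⟨(mul_eq_zero.mp h4).resolve_right hF2ne, rfl⟩

end Pool.Agent.H732_geproci
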