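import Mathlib
import Pool.Agent.H732_geproci.Fam

/-!
# The family is nondegenerate and consists of sets that are not grids
-/

set_option autoImplicit false
set_option maxHeartbeats 400000

open Matrix

namespace Pool.Agent.H732_geproci

/-- The line `i`. -/
def Lam (α : ℂ) (i : Fin 4) : Submodule ℂ (Fin 4 → ℂ) :=
  Submodule.span ℂ {pt α i 1 0, pt α i 0 1}

lemma mem_Lam {α : ℂ} {i : Fin 4} {x : Fin 4 → ℂ} :
    x ∈ Lam α i ↔ ∃ w0 w1, x = pt α i w0 w1 := by
  rw [Lam, Submodule.mem_span_pair]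
  constructor
  · rintro ⟨a, b, rfl⟩
    exact ⟨a, b, by rw [pt_smul, pt_smul, pt_add]; simp⟩
  · rintro ⟨a, b, rfl⟩
    exact ⟨a, b, by rw [pt_smul, pt_smul, pt_add]; simp⟩

lemma pt_inj {α : ℂ} {i : Fin 4} {w0 w1 w0' w1' : ℂ}
    (h : pt α i w0 w1 = pt α i w0' w1') : w0 = w0' ∧ w1 = w1' := by
  have h0 := congrFun h 0
  have h1 := congrFun h 1
  have h2 := congrFun h 2
  have h3 := congrFun h 3
  fin_cases i <;> simp [pt, pc, rc] at h0 h1 h2 h3
  · exact ⟨h0, h1⟩
  · exact ⟨h2, h3⟩
  · exact ⟨h0, h1⟩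
  · exact ⟨h0, h1⟩

/-- Different lines are skew. -/
lemma pt_eq_pt {α : ℂ} (hα : α ^ 2 - α + 1 = 0) {i k : Fin 4} (hik : i ≠ k)
    {w0 w1 w0' w1' : ℂ} (h : pt α i w0 w1 = pt α k w0' w1') : w0 = 0 ∧ w1 = 0 := by
  obtain ⟨hD, hD'⟩ := cases_D α hα hik
  have h0 : pc i * w0 = pc k * w0' := congrFun h 0
  have h1 : pc i * w1 = pc k * w1' := congrFun h 1
  have h2 : rc α i * w0 = rc α k * w0' := congrFun h 2
  have h3 : rc (1 - α) i * w1 = rc (1 - α) k * w1' := congrFun h 3
  constructor
  · have e : w0 * (pc i * rc α k - rc α i * pc k) = 0 := by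
      linear_combination rc α k * h0 - pc k * h2
    rcases mul_eq_zero.mp e with e | e
    · exact e
    · exact absurd (by rw [e]; norm_num) hD
  · have e : w1 * (pc i * rc (1 - α) k - rc (1 - α) i * pc k) = 0 := by
      linear_combination rc (1 - α) k * h1 - pc k * h3
    rcases mul_eq_zero.mp e with e | e
    · exact e
    · rw [← hD', e] at hD
      exact absurd (by norm_num) hD

lemma sg_ne_zero {α ρ : ℂ} (hα : α ^ 2 - α + 1 = 0) (hρ0 : ρ ≠ 0) (j : Fin 6) :
    sg α ρ j ≠ 0 := by
  intro h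
  have h1 := (root_iff hα ρ (sg α ρ j)).mpr ⟨j, rfl⟩
  rw [h] at h1
  have h2 : ρ ^ 3 = 0 := by linear_combination h1
  exact hρ0 (pow_eq_zero_iff (by norm_num) |>.mp h2)

lemma sg_injective {α ρ : ℂ} (hα : α ^ 2 - α + 1 = 0) (hρ0 : ρ ≠ 0) (hρ : ρ ^ 3 ≠ 1) :
    Function.Injective (sg α ρ) := by
  have hα0 : α ≠ 0 := by
    rintro rfl
    norm_num at hα
  have a1 : α - 1 ≠ 1 := by
    intro h
    have h' : α = 2 := by linear_combination h
    rw [h'] at hα
    norm_num at hα
  have a2 : -α ≠ 1 := by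
    intro h
    have h' : α = -1 := by linear_combination -h
    rw [h'] at hα
    norm_num at hα
  have a3 : -α ≠ α - 1 := by
    intro h
    have h' : α = 1 / 2 := by linear_combination -h / 2
    rw [h'] at hα
    norm_num at hα
  have e1 : (α - 1) ^ 3 = 1 := by linear_combination (α - 2) * hα
  have e2 : (-α) ^ 3 = 1 := by linear_combination -(α + 1) * hα
  have cube : ∀ x y : ℂ, x ^ 3 = 1 → y ^ 3 = 1 → x ≠ y * ρ := by
    intro x y hx hy h
    apply hρ
    have : x ^ 3 = y ^ 3 * ρ ^ 3 := by rw [h]; ring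
    rw [hx, hy, one_mul] at this
    exact this.symm
  have c1 := cube 1 1 (by norm_num) (by norm_num)
  have c2 := cube 1 (α - 1) (by norm_num) e1
  have c3 := cube 1 (-α) (by norm_num) e2
  have c4 := cube (α - 1) 1 e1 (by norm_num)
  have c5 := cube (α - 1) (α - 1) e1 e1
  have c6 := cube (α - 1) (-α) e1 e2
  have c7 := cube (-α) 1 e2 (by norm_num)
  have c8 := cube (-α) (α - 1) e2 e1
  have c9 := cube (-α) (-α) e2 e2
  rw [one_mul] at c1 c4 c7
  have d1 : ρ ≠ (α - 1) * ρ := by
    intro h
    apply a1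
    apply mul_right_cancel₀ hρ0
    rw [one_mul]
    exact h.symm
  have d2 : ρ ≠ -α * ρ := by
    intro h
    apply a2
    apply mul_right_cancel₀ hρ0
    rw [one_mul]
    exact h.symm
  have d3 : (α - 1) * ρ ≠ -α * ρ := by
    intro h
    apply a3
    exact (mul_right_cancel₀ hρ0 h).symm
  intro i j hij
  fin_cases i <;> fin_cases j <;> first
    | rfl
    | (exfalso
       simp only [sg] at hij
       first
         | exact a1 hij.symm | exact a1 hij | exact a2 hij.symm | exact a2 hij
         | exact a3 hij.symm | exact a3 hij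
         | exact c1 hij | exact c1 hij.symm | exact c2 hij | exact c2 hij.symm
         | exact c3 hij | exact c3 hij.symm | exact c4 hij | exact c4 hij.symm
         | exact c5 hij | exact c5 hij.symm | exact c6 hij | exact c6 hij.symm
         | exact c7 hij | exact c7 hij.symm | exact c8 hij | exact c8 hij.symm
         | exact c9 hij | exact c9 hij.symm
         | exact d1 hij | exact d1 hij.symm | exact d2 hij | exact d2 hij.symm
         | exact d3 hij | exact d3 hij.symm)

/-- The labels of the points are determined by the points. -/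
lemma zvec_smul_inj {α ρ : ℂ} (hα : α ^ 2 - α + 1 = 0) (hρ0 : ρ ≠ 0) (hρ : ρ ^ 3 ≠ 1)
    {p q : Fin 4 × Fin 6} {c : ℂ} (h : c • zvec α ρ p = zvec α ρ q) : p = q := by
  rw [zvec, zvec, pt_smul] at h
  by_cases hpq : q.1 = p.1
  · rw [hpq] at h
    obtain ⟨h1, h2⟩ := pt_inj h
    rw [mul_one] at h1
    rw [h1, one_mul] at h2
    exact Prod.ext hpq.symm (sg_injective hα hρ0 hρ h2)
  · have := pt_eq_pt hα hpq h.symm
    exact absurd this.1 one_ne_zero

lemma zpt_injective {α ρ : ℂ} (hα : α ^ 2 - α + 1 = 0) (hρ0 : ρ ≠ 0) (hρ : ρ ^ 3 ≠ 1) :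
    Function.Injective (zpt α ρ) := by
  intro p q h
  rw [zpt, zpt, Projectivization.mk_eq_mk_iff'] at h
  obtain ⟨c, hc⟩ := h
  exact (zvec_smul_inj hα hρ0 hρ hc).symm

/-- A line through two points of the line `i` is the line `i`. -/
lemma eq_Lam {α ρ : ℂ} (hα : α ^ 2 - α + 1 = 0) (hρ0 : ρ ≠ 0) (hρ : ρ ^ 3 ≠ 1)
    {N : Submodule ℂ (Fin 4 → ℂ)} (hN : Module.finrank ℂ N = 2) {i : Fin 4} {j j' : Fin 6}
    (hj : j ≠ j') (h1 : zvec α ρ (i, j) ∈ N) (h2 : zvec α ρ (i, j') ∈ N) : N = Lam α i := by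
  have hs : sg α ρ j' - sg α ρ j ≠ 0 := sub_ne_zero.mpr (fun h => hj (sg_injective hα hρ0 hρ h).symm)
  have h3 : pt α i 0 1 ∈ N := by
    have h4 : pt α i 0 1 = (sg α ρ j' - sg α ρ j)⁻¹ • (zvec α ρ (i, j') - zvec α ρ (i, j)) := by
      have h5 : zvec α ρ (i, j') = zvec α ρ (i, j) + pt α i 0 (sg α ρ j' - sg α ρ j) := by
        rw [zvec, zvec, pt_add]
        simp
      rw [h5, add_sub_cancel_left, pt_smul, mul_zero, inv_mul_cancel₀ hs]
    rw [h4]
    exact N.smul_mem _ (N.sub_mem h2 h1)
  have h4 : pt α i 1 0 ∈ N := by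
    have h5 : pt α i 1 0 = zvec α ρ (i, j) - sg α ρ j • pt α i 0 1 := by
      rw [zvec, pt_smul, eq_sub_iff_add_eq, pt_add]
      simp
    rw [h5]
    exact N.sub_mem h1 (N.smul_mem _ h3)
  have hle : Lam α i ≤ N := by
    rw [Lam, Submodule.span_le]
    intro x hx
    simp only [Set.mem_insert_iff, Set.mem_singleton_iff] at hx
    rcases hx with rfl | rfl
    · exact h4
    · exact h3
  have hfr : Module.finrank ℂ (Lam α i) = 2 := by
    have hli : LinearIndependent ℂ ![pt α i 1 0, pt α i 0 1] := by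
      rw [LinearIndependent.pair_iff]
      intro a b hab
      rw [pt_smul, pt_smul, pt_add] at hab
      have h0 : pt α i 0 0 = 0 := by
        have := pt_smul α i 0 0 0
        rw [zero_smul] at this
        simpa using this.symm
      rw [← h0] at hab
      have := pt_inj hab
      simpa using this
    have h6 := finrank_span_eq_card hli
    have h7 : Set.range ![pt α i 1 0, pt α i 0 1] = {pt α i 1 0, pt α i 0 1} := by
      rw [Matrix.range_cons, Matrix.range_cons, Matrix.range_empty]
      ext x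
      simp only [Set.union_empty, Set.mem_union, Set.mem_singleton_iff, Set.mem_insert_iff]
    rw [h7, Fintype.card_fin] at h6
    exact h6
  exact (Submodule.eq_of_le_of_finrank_eq hle (by rw [hfr, hN])).symm

/-- No line meets all four lines in points of the set. -/
lemma no_transversal {α ρ : ℂ} (hα : α ^ 2 - α + 1 = 0) (hρ0 : ρ ≠ 0)
    {N : Submodule ℂ (Fin 4 → ℂ)} (hN : Module.finrank ℂ N = 2) (j : Fin 4 → Fin 6)
    (h : ∀ i, zvec α ρ (i, j i) ∈ N) : False := by
  set a := zvec α ρ (0, j 0) with ha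
  set b := zvec α ρ (1, j 1) with hb
  have hli : LinearIndependent ℂ ![a, b] := by
    rw [LinearIndependent.pair_iff]
    intro s t hst
    have e0 := congrFun hst 0
    have e2 := congrFun hst 2
    simp [ha, hb, zvec, pt, pc, rc] at e0 e2
    exact ⟨e0, e2⟩
  have hspan : Submodule.span ℂ {a, b} = N := by
    apply Submodule.eq_of_le_of_finrank_eq
    · rw [Submodule.span_le]
      intro x hx
      simp only [Set.mem_insert_iff, Set.mem_singleton_iff] at hx
      rcases hx with rfl | rfl
      · exact h 0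
      · exact h 1
    · have h6 := finrank_span_eq_card hli
      have h7 : Set.range ![a, b] = {a, b} := by
        rw [Matrix.range_cons, Matrix.range_cons, Matrix.range_empty]
        ext x
        simp only [Set.union_empty, Set.mem_union, Set.mem_singleton_iff, Set.mem_insert_iff]
      rw [h7] at h6
      rw [hN]
      simpa using h6
  have h2 := h 2
  have h3 := h 3
  rw [← hspan, Submodule.mem_span_pair] at h2 h3
  obtain ⟨x, y, hxy⟩ := h2
  obtain ⟨x', y', hxy'⟩ := h3
  have e0 := congrFun hxy 0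
  have e1 := congrFun hxy 1
  have e2 := congrFun hxy 2
  have e3 := congrFun hxy 3
  have f0 := congrFun hxy' 0
  have f1 := congrFun hxy' 1
  have f2 := congrFun hxy' 2
  have f3 := congrFun hxy' 3
  simp [ha, hb, zvec, pt, pc, rc] at e0 e1 e2 e3 f0 f1 f2 f3
  rw [e0, one_mul] at e1
  rw [e2, one_mul] at e3
  rw [f0, one_mul] at f1
  rw [f2] at f3
  have hs := sg_ne_zero hα hρ0 (j 3)
  have e4 : (2 * α - 1) * sg α ρ (j 3) = 0 := by
    have e5 : sg α ρ (j 1) = sg α ρ (j 3) := by rw [e3, ← e1, f1]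
    rw [e5] at f3
    linear_combination f3
  rcases mul_eq_zero.mp e4 with e5 | e5
  · have h' : α = 1 / 2 := by linear_combination e5 / 2
    rw [h'] at hα
    norm_num at hα
  · exact hs e5

/-- The rows of a grid. -/
lemma row {α ρ : ℂ} (hα : α ^ 2 - α + 1 = 0) (hρ0 : ρ ≠ 0) (hρ : ρ ^ 3 ≠ 1) {m n : ℕ}
    (L : Fin m → Submodule ℂ (Fin 4 → ℂ)) (M : Fin n → Submodule ℂ (Fin 4 → ℂ))
    (hL2 : ∀ i, Module.finrank ℂ (L i) = 2)
    (hL : ∀ i i', i ≠ i' → L i ⊓ L i' = ⊥) (hM : ∀ j j', j ≠ j' → M j ⊓ M j' = ⊥)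
    (q : Fin m → Fin n → Fin 4 × Fin 6)
    (hq : ∀ a b, Submodule.span ℂ {zvec α ρ (q a b)} = L a ⊓ M b)
    (hsurj : ∀ p, ∃ a b, q a b = p) (a : Fin m) : n ≤ 3 ∨ n = 6 := by
  classical
  have hmemL : ∀ a b, zvec α ρ (q a b) ∈ L a := by
    intro a b
    have : zvec α ρ (q a b) ∈ L a ⊓ M b := by
      rw [← hq a b]
      exact Submodule.mem_span_singleton_self _
    exact this.1
  have hmemM : ∀ a b, zvec α ρ (q a b) ∈ M b := by
    intro a b
    have : zvec α ρ (q a b) ∈ L a ⊓ M b := by
      rw [← hq a b]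
      exact Submodule.mem_span_singleton_self _
    exact this.2
  have hinj : ∀ b b', q a b = q a b' → b = b' := by
    intro b b' h
    by_contra hne
    have h1 := hmemM a b
    have h2 := hmemM a b'
    rw [← h] at h2
    have h3 : zvec α ρ (q a b) ∈ M b ⊓ M b' := ⟨h1, h2⟩
    rw [hM b b' hne, Submodule.mem_bot] at h3
    exact zvec_ne_zero α ρ _ h3
  by_cases hc : ∃ b b', b ≠ b' ∧ (q a b).1 = (q a b').1
  · right
    obtain ⟨b, b', hbb, hi⟩ := hc
    have hj : (q a b).2 ≠ (q a b').2 := fun h => hbb (hinj b b' (Prod.ext hi h))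
    set i := (q a b).1 with hidef
    have hLa : L a = Lam α i := by
      apply eq_Lam hα hρ0 hρ (hL2 a) hj
      · have := hmemL a b
        exact this
      · have := hmemL a b'
        rw [show q a b' = (i, (q a b').2) from Prod.ext hi.symm rfl] at this
        exact this
    have hi' : ∀ c, (q a c).1 = i := by
      intro c
      by_contra hne
      have h1 := hmemL a c
      rw [hLa, mem_Lam] at h1
      obtain ⟨w0, w1, h1⟩ := h1
      exact absurd (pt_eq_pt hα hne h1).1 one_ne_zero
    have hbij : Function.Bijective (fun c => (q a c).2) := by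
      constructor
      · intro c c' h
        exact hinj c c' (Prod.ext ((hi' c).trans (hi' c').symm) h)
      · intro j
        obtain ⟨a', b'', h⟩ := hsurj (i, j)
        have haa : a' = a := by
          by_contra hne
          have h1 := hmemL a' b''
          have h2 : zvec α ρ (q a' b'') ∈ L a := by
            rw [h, hLa, mem_Lam]
            exact ⟨1, _, rfl⟩
          have h3 : zvec α ρ (q a' b'') ∈ L a' ⊓ L a := ⟨h1, h2⟩
          rw [hL a' a hne, Submodule.mem_bot] at h3
          exact zvec_ne_zero α ρ _ h3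
        subst haa
        exact ⟨b'', by simp only [h]⟩
    have := Fintype.card_of_bijective hbij
    simpa using this
  · left
    push Not at hc
    have hinj' : Function.Injective (fun c => (q a c).1) := by
      intro b b' h
      by_contra hne
      exact hc b b' hne h
    have hle := Fintype.card_le_of_injective _ hinj'
    simp only [Fintype.card_fin] at hle
    by_contra hcon
    have hn : n = 4 := by omega
    subst hn
    have hsur : Function.Surjective (fun c => (q a c).1) :=
      Finite.surjective_of_injective hinj'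
    choose r hr using hsur
    apply no_transversal hα hρ0 (hL2 a) (fun i => (q a (r i)).2)
    intro i
    have := hmemL a (r i)
    rw [show q a (r i) = (i, (q a (r i)).2) from Prod.ext (hr i) rfl] at this
    exact this

/-- **The sets are not grids.** -/
theorem Zs_not_grid {α ρ : ℂ} (hα : α ^ 2 - α + 1 = 0) (hρ0 : ρ ≠ 0) (hρ : ρ ^ 3 ≠ 1)
    (m n : ℕ) : ¬ IsGrid m n (Zs α ρ) := by
  classical
  rintro ⟨L, M, hL2, hM2, hL, hM, hLM, hmem⟩
  have key : ∀ a b, ∃ q, Submodule.span ℂ {zvec α ρ q} = L a ⊓ M b := by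
    intro a b
    have h1 := (hmem (Projectivization.mk'' (L a ⊓ M b) (hLM a b))).mpr
      ⟨a, b, Projectivization.submodule_mk'' _ _⟩
    obtain ⟨q, hq⟩ := h1
    refine ⟨q, ?_⟩
    rw [← zpt_submodule, hq, Projectivization.submodule_mk'']
  choose q hq using key
  have hsurj : ∀ p, ∃ a b, q a b = p := by
    intro p
    obtain ⟨a, b, hab⟩ := (hmem (zpt α ρ p)).mp ⟨p, rfl⟩
    refine ⟨a, b, ?_⟩
    rw [← hq a b, ← zpt_submodule] at hab
    exact (zpt_injective hα hρ0 hρ (Projectivization.submodule_injective hab)).symm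
  have hmemL : ∀ a b, zvec α ρ (q a b) ∈ L a := by
    intro a b
    have : zvec α ρ (q a b) ∈ L a ⊓ M b := by
      rw [← hq a b]
      exact Submodule.mem_span_singleton_self _
    exact this.1
  have hmemM : ∀ a b, zvec α ρ (q a b) ∈ M b := by
    intro a b
    have : zvec α ρ (q a b) ∈ L a ⊓ M b := by
      rw [← hq a b]
      exact Submodule.mem_span_singleton_self _
    exact this.2
  have hbij : Function.Bijective (fun x : Fin m × Fin n => q x.1 x.2) := by
    constructor
    · rintro ⟨a, b⟩ ⟨a', b'⟩ h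
      simp only at h
      have h1 : a = a' := by
        by_contra hne
        have h3 : zvec α ρ (q a b) ∈ L a ⊓ L a' := ⟨hmemL a b, by rw [h]; exact hmemL a' b'⟩
        rw [hL a a' hne, Submodule.mem_bot] at h3
        exact zvec_ne_zero α ρ _ h3
      have h2 : b = b' := by
        by_contra hne
        have h3 : zvec α ρ (q a b) ∈ M b ⊓ M b' := ⟨hmemM a b, by rw [h]; exact hmemM a' b'⟩
        rw [hM b b' hne, Submodule.mem_bot] at h3
        exact zvec_ne_zero α ρ _ h3
      rw [h1, h2]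
    · intro p
      obtain ⟨a, b, h⟩ := hsurj p
      exact ⟨(a, b), h⟩
  have hcard := Fintype.card_of_bijective hbij
  simp only [Fintype.card_prod, Fintype.card_fin] at hcard
  have hm0 : 0 < m := by
    rcases Nat.eq_zero_or_pos m with h | h
    · rw [h] at hcard
      omega
    · exact h
  have hn0 : 0 < n := by
    rcases Nat.eq_zero_or_pos n with h | h
    · rw [h] at hcard
      omega
    · exact h
  have h1 := row hα hρ0 hρ L M hL2 hL hM q hq hsurj ⟨0, hm0⟩
  have h2 := row hα hρ0 hρ M L hM2 hM hL (fun b a => q a b)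
    (fun b a => by rw [hq a b, inf_comm])
    (fun p => by
      obtain ⟨a, b, h⟩ := hsurj p
      exact ⟨b, a, h⟩) ⟨0, hn0⟩
  rcases h1 with h1 | h1 <;> rcases h2 with h2 | h2
  · nlinarith
  · subst h2
    omega
  · subst h1
    omega
  · subst h1 h2
    omega

/-- **The sets do not lie in a plane.** -/
theorem Zs_nondegenerate {α ρ : ℂ} (hα : α ^ 2 - α + 1 = 0) : ¬ IsDegenerate (Zs α ρ) := by
  rintro ⟨h, hh0, hh⟩
  apply hh0
  have key : ∀ q, h ⬝ᵥ zvec α ρ q = 0 := by
    intro q
    have h1 := hh (zpt α ρ q) ⟨q, rfl⟩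
    obtain ⟨c, hc⟩ := Projectivization.exists_smul_eq_mk_rep ℂ (zvec α ρ q)
      (zvec_ne_zero α ρ q)
    have h2 : (zpt α ρ q).rep = (c : ℂ) • zvec α ρ q := by
      rw [zpt, ← hc]
      rfl
    have h3 : h ⬝ᵥ (zpt α ρ q).rep = 0 := h1
    rw [h2, dotProduct_smul, smul_eq_mul] at h3
    exact (mul_eq_zero.mp h3).resolve_left c.ne_zero
  have a1 : (α : ℂ) ≠ 2 := by
    rintro rfl
    norm_num at hα
  have k1 := key (0, 0)
  have k2 := key (0, 1)
  have k3 := key (1, 0)
  have k4 := key (1, 1)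
  simp [zvec, pt, pc, rc, sg, dotProduct, Fin.sum_univ_four] at k1 k2 k3 k4
  have e1 : h 1 = 0 := by
    have : h 1 * (α - 2) = 0 := by linear_combination k2 - k1
    exact (mul_eq_zero.mp this).resolve_right (sub_ne_zero.mpr a1)
  have e3 : h 3 = 0 := by
    have : h 3 * (α - 2) = 0 := by linear_combination k4 - k3
    exact (mul_eq_zero.mp this).resolve_right (sub_ne_zero.mpr a1)
  have e0 : h 0 = 0 := by linear_combination k1 - e1
  have e2 : h 2 = 0 := by linear_combination k3 - e3
  funext i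
  fin_cases i
  · exact e0
  · exact e1
  · exact e2
  · exact e3

end Pool.Agent.H732_geproci
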