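import Mathlib
import Pool.Agent.H732_geproci.Grid
import Pool.Agent.H732_geproci.Gep

/-!
# Projective equivalence inside the family, matroids
-/

set_option autoImplicit false
set_option maxHeartbeats 400000

open Matrix

namespace Pool.Agent.H732_geproci

lemma ProjEquiv.symm {Z Z' : Set P3} (h : ProjEquiv Z Z') : ProjEquiv Z' Z := by
  obtain ⟨g, rfl⟩ := h
  refine ⟨g.symm, ?_⟩
  ext z
  constructor
  · intro hz
    refine ⟨Projectivization.map g.toLinearMap g.injective z, ⟨z, hz, rfl⟩, ?_⟩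
    induction z using Projectivization.ind with
    | h v hv =>
      rw [Projectivization.map_mk, Projectivization.map_mk]
      congr 1
      simp
  · rintro ⟨_, ⟨y, hy, rfl⟩, rfl⟩
    have : (Projectivization.map g.symm.toLinearMap g.symm.injective)
        (Projectivization.map g.toLinearMap g.injective y) = y := by
      induction y using Projectivization.ind with
      | h v hv =>
        rw [Projectivization.map_mk, Projectivization.map_mk]
        congr 1
        simp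
    rw [this]
    exact hy

lemma ProjEquiv.trans {Z Z' Z'' : Set P3} (h : ProjEquiv Z Z') (h' : ProjEquiv Z' Z'') :
    ProjEquiv Z Z'' := by
  obtain ⟨g, rfl⟩ := h
  obtain ⟨g', rfl⟩ := h'
  refine ⟨g.trans g', ?_⟩
  rw [Set.image_image]
  apply Set.image_congr
  intro z _
  induction z using Projectivization.ind with
  | h v hv =>
    rw [Projectivization.map_mk, Projectivization.map_mk, Projectivization.map_mk]
    rfl

/-- A projective equivalence inside the family: the images of the vectors. -/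
lemma exists_label {α ρ ρ' : ℂ} {g : (Fin 4 → ℂ) ≃ₗ[ℂ] (Fin 4 → ℂ)}
    (hg : Zs α ρ' = (Projectivization.map g.toLinearMap g.injective) '' Zs α ρ)
    (p : Fin 4 × Fin 6) : ∃ q, ∃ t : ℂ, t ≠ 0 ∧ g (zvec α ρ p) = t • zvec α ρ' q := by
  have h1 : Projectivization.map g.toLinearMap g.injective (zpt α ρ p) ∈ Zs α ρ' := by
    rw [hg]
    exact ⟨_, ⟨p, rfl⟩, rfl⟩
  obtain ⟨q, hq⟩ := h1
  rw [zpt, zpt, Projectivization.map_mk, Projectivization.mk_eq_mk_iff] at hq
  obtain ⟨u, hu⟩ := hq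
  refine ⟨q, ((u⁻¹ : ℂˣ) : ℂ), (u⁻¹).ne_zero, ?_⟩
  have h2 : g (zvec α ρ p) = ((u⁻¹ : ℂˣ) : ℂ) • ((u : ℂˣ) : ℂ) • g (zvec α ρ p) := by
    rw [smul_smul, ← Units.val_mul, inv_mul_cancel, Units.val_one, one_smul]
  rw [h2]
  congr 1

/-- Images of four points of the first line with given labels. -/
def HasLab (α ρ' ρ : ℂ) (q : Fin 4 → Fin 4 × Fin 6) : Prop :=
  ∃ (g : (Fin 4 → ℂ) ≃ₗ[ℂ] (Fin 4 → ℂ)) (t : Fin 4 → ℂ), (∀ i, t i ≠ 0) ∧
    g (pt α 0 1 1) = t 0 • zvec α ρ' (q 0) ∧ g (pt α 0 1 (α - 1)) = t 1 • zvec α ρ' (q 1) ∧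
    g (pt α 0 1 (-α)) = t 2 • zvec α ρ' (q 2) ∧ g (pt α 0 1 ρ) = t 3 • zvec α ρ' (q 3)

lemma exists_hasLab {α ρ ρ' : ℂ} (h : ProjEquiv (Zs α ρ) (Zs α ρ')) :
    ∃ q, HasLab α ρ' ρ q := by
  obtain ⟨g, hg⟩ := h
  obtain ⟨q0, t0, ht0, h0⟩ := exists_label hg (0, 0)
  obtain ⟨q1, t1, ht1, h1⟩ := exists_label hg (0, 1)
  obtain ⟨q2, t2, ht2, h2⟩ := exists_label hg (0, 2)
  obtain ⟨q3, t3, ht3, h3⟩ := exists_label hg (0, 3)
  refine ⟨![q0, q1, q2, q3], g, ![t0, t1, t2, t3], ?_, h0, h1, h2, h3⟩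
  intro i
  fin_cases i
  · exact ht0
  · exact ht1
  · exact ht2
  · exact ht3

/-- The labels of the images of four points determine the parameter (cross ratio). -/
lemma hasLab_unique {α ρ' ρ₁ ρ₂ : ℂ} (hα : α ^ 2 - α + 1 = 0) {q : Fin 4 → Fin 4 × Fin 6}
    (h₁ : HasLab α ρ' ρ₁ q) (h₂ : HasLab α ρ' ρ₂ q) : ρ₁ = ρ₂ := by
  have a0 : α + 1 ≠ 0 := by
    intro h
    have h' : α = -1 := by linear_combination h
    rw [h'] at hα
    norm_num at hα
  have a1 : 2 * α - 1 ≠ 0 := by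
    intro h
    have h' : α = 1 / 2 := by linear_combination h / 2
    rw [h'] at hα
    norm_num at hα
  have a2 : α - 2 ≠ 0 := by
    intro h
    have h' : α = 2 := by linear_combination h
    rw [h'] at hα
    norm_num at hα
  have rel : ∀ x : ℂ, (α - 2) • pt α 0 1 x =
      (α - 1 - x) • pt α 0 1 1 + (x - 1) • pt α 0 1 (α - 1) := by
    intro x
    rw [pt_smul, pt_smul, pt_smul, pt_add]
    congr 1 <;> ring
  obtain ⟨g, t, ht, g0, g1, g2, g3⟩ := h₁
  obtain ⟨g', t', ht', g0', g1', g2', g3'⟩ := h₂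
  have key : ∀ (g : (Fin 4 → ℂ) ≃ₗ[ℂ] (Fin 4 → ℂ)) (x : ℂ), (α - 2) • g (pt α 0 1 x) =
      (α - 1 - x) • g (pt α 0 1 1) + (x - 1) • g (pt α 0 1 (α - 1)) := by
    intro g x
    rw [← map_smul, rel x, map_add, map_smul, map_smul]
  have r2 := key g (-α)
  have r3 := key g ρ₁
  have r2' := key g' (-α)
  have r3' := key g' ρ₂
  rw [g2, g0, g1] at r2
  rw [g3, g0, g1] at r3
  rw [g2', g0', g1'] at r2'
  rw [g3', g0', g1'] at r3'
  set wa := zvec α ρ' (q 0)
  set wb := zvec α ρ' (q 1)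
  set wc := zvec α ρ' (q 2)
  set wd := zvec α ρ' (q 3)
  have hind : LinearIndependent ℂ ![wa, wb] := by
    rw [LinearIndependent.pair_iff]
    intro a b hab
    have h1 : g ((a * (t 0)⁻¹) • pt α 0 1 1 + (b * (t 1)⁻¹) • pt α 0 1 (α - 1)) = 0 := by
      rw [map_add, map_smul, map_smul, g0, g1, smul_smul, smul_smul, mul_assoc, mul_assoc,
        inv_mul_cancel₀ (ht 0), inv_mul_cancel₀ (ht 1), mul_one, mul_one]
      exact hab
    have h2 : (a * (t 0)⁻¹) • pt α 0 1 1 + (b * (t 1)⁻¹) • pt α 0 1 (α - 1) = 0 := by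
      apply g.injective
      rw [h1, map_zero]
    have h0 : pt α 0 0 0 = 0 := by
      have := pt_smul α 0 0 0 0
      rw [zero_smul] at this
      simpa using this.symm
    rw [pt_smul, pt_smul, pt_add, ← h0] at h2
    obtain ⟨e1, e2⟩ := pt_inj h2
    have e3 : b * (t 1)⁻¹ = 0 := by
      have : (b * (t 1)⁻¹) * (α - 2) = 0 := by linear_combination e2 - e1
      exact (mul_eq_zero.mp this).resolve_right a2
    have e4 : a * (t 0)⁻¹ = 0 := by linear_combination e1 - e3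
    exact ⟨(mul_eq_zero.mp e4).resolve_right (inv_ne_zero (ht 0)),
      (mul_eq_zero.mp e3).resolve_right (inv_ne_zero (ht 1))⟩
  rw [LinearIndependent.pair_iff] at hind
  -- comparison of the third points
  have c1 := hind (t' 2 * ((α - 1 - -α) * t 0) - t 2 * ((α - 1 - -α) * t' 0))
    (t' 2 * ((-α - 1) * t 1) - t 2 * ((-α - 1) * t' 1)) (by
      have e1 : (t' 2) • ((α - 2) • t 2 • wc) = (t 2) • ((α - 2) • t' 2 • wc) := by
        simp only [smul_smul]
        congr 1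
        ring
      rw [r2, r2'] at e1
      simp only [smul_add, smul_smul] at e1
      rw [sub_smul, sub_smul]
      rw [← sub_eq_zero] at e1
      rw [← e1]
      abel)
  have c2 := hind (t' 3 * ((α - 1 - ρ₁) * t 0) - t 3 * ((α - 1 - ρ₂) * t' 0))
    (t' 3 * ((ρ₁ - 1) * t 1) - t 3 * ((ρ₂ - 1) * t' 1)) (by
      have e1 : (t' 3) • ((α - 2) • t 3 • wd) = (t 3) • ((α - 2) • t' 3 • wd) := by
        simp only [smul_smul]
        congr 1
        ring
      rw [r3, r3'] at e1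
      simp only [smul_add, smul_smul] at e1
      rw [sub_smul, sub_smul]
      rw [← sub_eq_zero] at e1
      rw [← e1]
      abel)
  obtain ⟨c1a, c1b⟩ := c1
  obtain ⟨c2a, c2b⟩ := c2
  have d1 : t' 2 * t 0 = t 2 * t' 0 := by
    apply mul_left_cancel₀ a1
    linear_combination c1a
  have d2 : t' 2 * t 1 = t 2 * t' 1 := by
    apply mul_left_cancel₀ a0
    linear_combination -c1b
  have f1 : t' 3 * t 2 * (α - 1 - ρ₁) = t 3 * t' 2 * (α - 1 - ρ₂) := by
    apply mul_right_cancel₀ (ht 0)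
    linear_combination t 2 * c2a - t 3 * (α - 1 - ρ₂) * d1
  have f2 : t' 3 * t 2 * (ρ₁ - 1) = t 3 * t' 2 * (ρ₂ - 1) := by
    apply mul_right_cancel₀ (ht 1)
    linear_combination t 2 * c2b - t 3 * (ρ₂ - 1) * d2
  have f3 : t' 3 * t 2 = t 3 * t' 2 := by
    apply mul_right_cancel₀ a2
    linear_combination f1 + f2
  rw [f3] at f2
  have f4 := mul_left_cancel₀ (mul_ne_zero (ht 3) (ht' 2)) f2
  linear_combination f4

/-- Only finitely many members of the family are projectively equivalent to a given one. -/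
theorem finite_equiv {α : ℂ} (hα : α ^ 2 - α + 1 = 0) (ρ' : ℂ) :
    {ρ : ℂ | ProjEquiv (Zs α ρ) (Zs α ρ')}.Finite := by
  have h1 : {ρ : ℂ | ProjEquiv (Zs α ρ) (Zs α ρ')} ⊆
      ⋃ q : Fin 4 → Fin 4 × Fin 6, {ρ : ℂ | HasLab α ρ' ρ q} := by
    intro ρ hρ
    obtain ⟨q, hq⟩ := exists_hasLab hρ
    exact Set.mem_iUnion.mpr ⟨q, hq⟩
  refine Set.Finite.subset (Set.finite_iUnion (fun q => ?_)) h1
  apply Set.Subsingleton.finite
  intro ρ₁ h₁ ρ₂ h₂
  exact hasLab_unique hα h₁ h₂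

/-- The parameters. -/
def Good : Set ℂ := {ρ | ρ ≠ 0 ∧ ρ ^ 3 ≠ 1}

lemma infinite_good : Good.Infinite := by
  have h1 : {ρ : ℂ | ρ ^ 4 = ρ}.Finite := by
    have h2 : (Polynomial.X ^ 4 - Polynomial.X : Polynomial ℂ) ≠ 0 := by
      intro h
      have := congrArg (Polynomial.eval 2) h
      norm_num at this
    refine (Polynomial.finite_setOfPred_isRoot h2).subset ?_
    intro ρ hρ
    simp only [Set.mem_ofPred_eq] at hρ ⊢
    simp [Polynomial.IsRoot, hρ]
  refine Set.Infinite.mono ?_ (h1.infinite_compl)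
  intro ρ hρ
  constructor
  · rintro rfl
    apply hρ
    simp
  · intro h
    apply hρ
    show ρ ^ 4 = ρ
    rw [pow_succ, h, one_mul]

end Pool.Agent.H732_geproci
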