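import Mathlib
import Pool.Agent.H732_geproci.Cross

/-!
# Infinitely many classes; isomorphic matroids
-/

set_option autoImplicit false
set_option maxHeartbeats 400000

open Matrix

namespace Pool.Agent.H732_geproci

lemma exists_alpha : ∃ α : ℂ, α ^ 2 - α + 1 = 0 := by
  refine ⟨-(Complex.exp (2 * Real.pi * Complex.I / 3)), ?_⟩
  have h : IsPrimitiveRoot (Complex.exp (2 * Real.pi * Complex.I / (3 : ℕ))) 3 :=
    Complex.isPrimitiveRoot_exp 3 (by norm_num)
  have h1 := h.pow_eq_one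
  have h2 := h.ne_one (by norm_num)
  push_cast at h1 h2
  set w := Complex.exp (2 * Real.pi * Complex.I / 3)
  have h3 : (w - 1) * (w ^ 2 + w + 1) = 0 := by linear_combination h1
  have h4 := (mul_eq_zero.mp h3).resolve_left (sub_ne_zero.mpr h2)
  linear_combination h4

theorem Zs_nontrivial {α ρ : ℂ} (hα : α ^ 2 - α + 1 = 0) (hρ : ρ ∈ Good) :
    IsNontrivialGeproci 4 6 (Zs α ρ) :=
  ⟨Zs_geproci hα hρ.1 hρ.2, Zs_nondegenerate hα, Zs_not_grid hα hρ.1 hρ.2⟩

/-- There are infinitely many classes of nontrivial `(4, 6)`-geproci sets. -/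
theorem exists_seq : ∃ Z : ℕ → Set P3, (∀ n, IsNontrivialGeproci 4 6 (Z n)) ∧
    ∀ m n, m ≠ n → ¬ ProjEquiv (Z m) (Z n) := by
  classical
  obtain ⟨α, hα⟩ := exists_alpha
  obtain ⟨f, hf, hr⟩ := exists_seq_of_forall_finset_exists (fun ρ : ℂ => ρ ∈ Good)
    (fun ρ' ρ => ¬ ProjEquiv (Zs α ρ) (Zs α ρ')) (by
      intro s _
      have h1 : (⋃ ρ' ∈ s, {ρ : ℂ | ProjEquiv (Zs α ρ) (Zs α ρ')}).Finite :=
        Set.Finite.biUnion s.finite_toSet (fun ρ' _ => finite_equiv hα ρ')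
      obtain ⟨y, hy1, hy2⟩ := (infinite_good.sdiff h1).nonempty
      refine ⟨y, hy1, fun x hx h => hy2 ?_⟩
      exact Set.mem_biUnion hx h)
  refine ⟨fun n => Zs α (f n), fun n => Zs_nontrivial hα (hf n), ?_⟩
  intro m n hmn h
  rcases lt_or_gt_of_ne hmn with hlt | hlt
  · exact hr m n hlt h.symm
  · exact hr n m hlt h

/-- Independence of points and of the vectors of the family. -/
lemma independent_iff {α ρ : ℂ} {ι : Type*} (q : ι → Fin 4 × Fin 6) :
    LinearIndependent ℂ (fun i => (zpt α ρ (q i)).rep) ↔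
      LinearIndependent ℂ (fun i => zvec α ρ (q i)) := by
  choose u hu using fun p => Projectivization.exists_smul_eq_mk_rep ℂ (zvec α ρ p)
    (zvec_ne_zero α ρ p)
  have h1 : (fun i => (zpt α ρ (q i)).rep) = (fun i => u (q i)) • fun i => zvec α ρ (q i) := by
    funext i
    exact (hu (q i)).symm
  rw [h1, LinearIndependent.units_smul_iff]

/-- The labelled matroid. -/
def mat (α ρ : ℂ) : Set (Set (Fin 4 × Fin 6)) :=
  {T | LinearIndependent ℂ (fun q : T => zvec α ρ q.1)}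

lemma sameMatroid {α ρ ρ' : ℂ} (hα : α ^ 2 - α + 1 = 0) (hρ : ρ ∈ Good) (hρ' : ρ' ∈ Good)
    (h : mat α ρ = mat α ρ') : SameMatroid (Zs α ρ) (Zs α ρ') := by
  let E : Fin 4 × Fin 6 ≃ Zs α ρ :=
    Equiv.ofInjective (zpt α ρ) (zpt_injective hα hρ.1 hρ.2)
  let E' : Fin 4 × Fin 6 ≃ Zs α ρ' :=
    Equiv.ofInjective (zpt α ρ') (zpt_injective hα hρ'.1 hρ'.2)
  refine ⟨E.symm.trans E', fun S => ?_⟩
  set T : Set (Fin 4 × Fin 6) := E ⁻¹' S with hT
  let e : T ≃ S := E.subtypeEquiv (fun q => Iff.rfl)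
  have h1 : LinearIndependent ℂ (fun s : S => s.1.1.rep) ↔
      LinearIndependent ℂ (fun q : T => zvec α ρ q.1) := by
    rw [← independent_iff (fun q : T => q.1)]
    exact (linearIndependent_equiv' e (by funext q; rfl)).symm
  have h2 : LinearIndependent ℂ (fun s : S => ((E.symm.trans E') s.1).1.rep) ↔
      LinearIndependent ℂ (fun q : T => zvec α ρ' q.1) := by
    rw [← independent_iff (fun q : T => q.1)]
    refine (linearIndependent_equiv' e ?_).symm
    funext q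
    simp only [Function.comp]
    have h3 : (E.symm.trans E') (e q).1 = E' q.1 := by
      show E' (E.symm (E q.1)) = E' q.1
      rw [Equiv.symm_apply_apply]
    rw [h3]
    rfl
  rw [h1, h2]
  have h3 : T ∈ mat α ρ ↔ T ∈ mat α ρ' := by rw [h]
  exact h3

/-- There are two nontrivial geproci sets with isomorphic matroids which are not projectively
equivalent. -/
theorem exists_pair : ∃ Z Z' : Set P3, IsNontrivialGeproci 4 6 Z ∧ IsNontrivialGeproci 4 6 Z' ∧
    SameMatroid Z Z' ∧ ¬ ProjEquiv Z Z' := by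
  classical
  obtain ⟨α, hα⟩ := exists_alpha
  have : Infinite Good := infinite_good.to_subtype
  obtain ⟨M, hM⟩ := Finite.exists_infinite_fiber (fun ρ : Good => mat α ρ.1)
  obtain ⟨⟨ρ', hρ'⟩⟩ := hM.nonempty
  have h1 : (((fun ρ : Good => ρ.1) '' ((fun ρ : Good => mat α ρ.1) ⁻¹' {M}))).Infinite := by
    apply Set.Infinite.image
    · exact Subtype.val_injective.injOn
    · exact Set.infinite_coe_iff.mp hM
  obtain ⟨ρ, ⟨r, hr, rfl⟩, hρ2⟩ := (h1.sdiff (finite_equiv hα ρ'.1)).nonempty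
  refine ⟨Zs α r.1, Zs α ρ'.1, Zs_nontrivial hα r.2, Zs_nontrivial hα ρ'.2, ?_, hρ2⟩
  apply sameMatroid hα r.2 ρ'.2
  have e1 : mat α r.1 = M := hr
  have e2 : mat α ρ'.1 = M := hρ'
  rw [e1, e2]

end Pool.Agent.H732_geproci
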